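import Pool.Agent.Helper38.WM.St

/-!
# Module TRF: transfer from the free group to the presented group
-/

set_option autoImplicit false

namespace Pool.Agent.Helper67.WM

open Pool.Agent.Helper38.WM

/-- Powers of a subspace of the first term of a filtration lie in the higher terms. -/
theorem trf_pow {p : ℕ} {S : Type} [Group S] (F : Filt p S) (D : Submodule (ZMod p) (GA p S))
    (h : D ≤ F.J 1) : ∀ n : ℕ, D ^ n ≤ F.J n := by
  intro n
  induction n with
  | zero => rw [F.top]; exact le_top
  | succ n ih =>
    rw [pow_succ]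
    exact (mul_le_mul' ih h).trans (F.mul n 1)

/-- The image of the augmentation ideal under a surjection of groups contains the
augmentation ideal. -/
theorem trf_map {p : ℕ} {S T : Type} [Group S] [Group T] (f : S →* T)
    (hf : Function.Surjective f) (π : GA p S →ₐ[ZMod p] GA p T)
    (hπ : ∀ g, π (el p g) = el p (f g)) :
    Aug p T ≤ (Aug p S).map π.toLinearMap := by
  unfold Aug
  rw [Submodule.span_le]
  rintro _ ⟨t, rfl⟩
  obtain ⟨s, rfl⟩ := hf t
  refine ⟨el p s - 1, Submodule.subset_span ⟨s, rfl⟩, ?_⟩
  show π (el p s - 1) = el p (f s) - 1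
  rw [map_sub, map_one, hπ]

theorem hTRF : StTRF := by
  intro p _ X _ _ ι r F n hn h1 h2 hfin
  set G := PresentedGroup (Set.range r) with hG
  let mk : FreeGroup X →* G := PresentedGroup.mk (Set.range r)
  have hmk : Function.Surjective mk := PresentedGroup.mk_surjective _
  let π : GA p (FreeGroup X) →ₐ[ZMod p] GA p G :=
    MonoidAlgebra.lift (ZMod p) (GA p G) (FreeGroup X) ((MonoidAlgebra.of (ZMod p) G).comp mk)
  have hπ : ∀ g, π (el p g) = el p (mk g) := by
    intro g
    simp [π, el]
  -- the normal closure of the relators lies in the subgroup `D n`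
  have hker : ∀ x : FreeGroup X, mk x = 1 → x ∈ F.D n := by
    intro x hx
    have hx' : x ∈ Subgroup.normalClosure (Set.range r) :=
      (QuotientGroup.eq_one_iff (N := Subgroup.normalClosure (Set.range r)) x).mp hx
    have := F.D_normal n
    refine Subgroup.normalClosure_le_normal ?_ hx'
    rintro _ ⟨i, rfl⟩
    exact h1 i
  -- the section and the linear map that it induces
  let s : G → FreeGroup X := Function.surjInv hmk
  have hs : ∀ g, mk (s g) = g := Function.surjInv_eq hmk
  let B := MonoidAlgebra.basis G (ZMod p)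
  let σ : GA p G →ₗ[ZMod p] (GA p (FreeGroup X) ⧸ F.J n) :=
    B.constr (ZMod p) (fun g => (F.J n).mkQ (el p (s g)))
  have hσ : ∀ g, σ (el p g) = (F.J n).mkQ (el p (s g)) := by
    intro g
    have : el p g = B g := by simp [B, el]
    rw [this]
    exact B.constr_basis _ _ _
  have hcomp : ∀ f, σ (π f) = (F.J n).mkQ f := by
    have : σ ∘ₗ π.toLinearMap = (F.J n).mkQ := by
      refine (MonoidAlgebra.basis (FreeGroup X) (ZMod p)).ext ?_
      intro g
      have e : (MonoidAlgebra.basis (FreeGroup X) (ZMod p)) g = el p g := by simp [el]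
      rw [e]
      show σ (π (el p g)) = (F.J n).mkQ (el p g)
      rw [hπ, hσ, Submodule.mkQ_apply, Submodule.mkQ_apply, Submodule.Quotient.eq]
      have hd : s (mk g) * g⁻¹ ∈ F.D n := by
        apply hker
        rw [map_mul, hs, map_inv, mul_inv_cancel]
      have hd' : el p (s (mk g) * g⁻¹) - 1 ∈ F.J n := hd
      have h3 := F.mul_right hd' (el p g)
      have e2 : (el p (s (mk g) * g⁻¹) - 1) * el p g = el p (s (mk g)) - el p g := by
        rw [sub_mul, one_mul, el, el, ← map_mul, inv_mul_cancel_right]
      rwa [e2] at h3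
    intro f
    exact LinearMap.congr_fun this f
  -- the map kills the power of the augmentation ideal
  have hkill : Aug p G ^ n ≤ LinearMap.ker σ := by
    have h4 : Aug p G ^ n ≤ ((Aug p (FreeGroup X)) ^ n).map π.toLinearMap := by
      rw [Submodule.map_pow]
      exact pow_le_pow_left' (trf_map mk hmk π hπ) n
    refine h4.trans ?_
    rintro _ ⟨a, ha, rfl⟩
    rw [LinearMap.mem_ker]
    show σ (π a) = 0
    rw [hcomp, Submodule.mkQ_apply, Submodule.Quotient.mk_eq_zero]
    exact trf_pow F _ h2 n ha
  let τ : (GA p G ⧸ Aug p G ^ n) →ₗ[ZMod p] (GA p (FreeGroup X) ⧸ F.J n) :=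
    (Aug p G ^ n).liftQ σ hkill
  have hτ : Function.Surjective τ := by
    intro y
    obtain ⟨f, rfl⟩ := Submodule.mkQ_surjective _ y
    refine ⟨(Aug p G ^ n).mkQ (π f), ?_⟩
    rw [← hcomp f]
    exact Submodule.liftQ_apply _ _ _
  have := hfin
  exact LinearMap.finrank_le_finrank_of_surjective hτ

end Pool.Agent.Helper67.WM
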